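import Mathlib
import Pool.Agent.Helper85K9.Cor.Local

/-!
# The corona problem on the ball is local with respect to functions of one variable

`B` is the unit ball of `ℂ^n`. A bounded holomorphic function `u` on `B` is called one-dimensional
if `u = f ∘ ψ` with `f` bounded holomorphic on the disc and `ψ : B → 𝔻` holomorphic with affine
fibres (a linear coordinate, or the first coordinate of any automorphism of the ball, for instance).
Given one-dimensional functions `u_1, …, u_L`, the cell of `z₀` is the set of the points `z` of the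
ball with `|u_l(z) - u_l(z₀)| < ε` for all `l`.

`result`: if the Bezout equation for arbitrary bounded holomorphic functions `F_1, …, F_N` has, on
each single cell, holomorphic solutions bounded by `Q`, then it has solutions on the ball bounded by
a constant which depends only on `N`, `L`, `ε`, `Q`, and not on the dimension. No compatibility of
the local solutions is required.

`one_per_cell`: so corona data such that on each cell all functions but one, which is arbitrary and
may depend on the cell, have small oscillation are solvable, with constants independent of the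
dimension.

Proof. The tuples of all data with these properties, in all dimensions, are an element of the
Banach algebra of bounded families of holomorphic functions on balls of different dimensions
(`Pool.Agent.Helper85K9.Cor.HD`). If there were no common bound, some character `χ` of this
algebra would annihilate the families `F_j`. Let `c_l` be the value of `χ` at the family `u_l`. By
the localisation theorem of the starting library (`Pool.Agent.Y263.GF.loc_aff`), applied to
`(u_l - c_l) / 2` and `F`, the functions `u_l - c_l`, `F_j` have solutions with a common bound, which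
contradicts the fact that `χ` annihilates them.
-/

set_option autoImplicit false

open Metric Set

namespace Pool.Agent.Helper85K9.Old.CellsAnyDimension

/-- `ℂ^n` with the Euclidean norm. -/
abbrev V (n : ℕ) := EuclideanSpace ℂ (Fin n)

/-- `ψ` is a holomorphic map from the unit ball to the unit disc, and the fibre of `ψ` through any
point `z` is the part in the ball of the affine subspace `z + ker ψ'(z)`. -/
def HasAffineFibres {n : ℕ} (ψ : V n → ℂ) : Prop :=
  DifferentiableOn ℂ ψ (ball 0 1) ∧ (∀ z ∈ ball (0 : V n) 1, ‖ψ z‖ < 1) ∧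
    ∀ z ∈ ball (0 : V n) 1, ∀ z' ∈ ball (0 : V n) 1, ψ z' = ψ z ↔ fderiv ℂ ψ z (z' - z) = 0

/-- `u = f ∘ ψ` on the ball, where `ψ` has affine fibres and `f` is holomorphic on the unit disc and
bounded by `1`. -/
def OneDimensional {n : ℕ} (u : V n → ℂ) : Prop :=
  ∃ (f : ℂ → ℂ) (ψ : V n → ℂ), HasAffineFibres ψ ∧ DifferentiableOn ℂ f (ball 0 1) ∧
    (∀ w ∈ ball (0 : ℂ) 1, ‖f w‖ ≤ 1) ∧ ∀ z ∈ ball (0 : V n) 1, u z = f (ψ z)

/-- The cell of `z₀`. -/
def Cell {n L : ℕ} (u : Fin L → V n → ℂ) (ε : ℝ) (z₀ : V n) : Set (V n) :=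
  {z | z ∈ ball (0 : V n) 1 ∧ ∀ l, ‖u l z - u l z₀‖ < ε}

/-- The equation `∑ F_j g_j = 1` has a solution with `g_j` holomorphic on `Ω` and bounded by `C`. -/
def Solvable {n N : ℕ} (Ω : Set (V n)) (F : Fin N → V n → ℂ) (C : ℝ) : Prop :=
  ∃ g : Fin N → V n → ℂ, (∀ j, DifferentiableOn ℂ (g j) Ω) ∧ (∀ j, ∀ z ∈ Ω, ‖g j z‖ ≤ C) ∧
    ∀ z ∈ Ω, ∑ j, F j z * g j z = 1

theorem OneDimensional.one {n : ℕ} {u : V n → ℂ} (h : OneDimensional u) :
    Pool.Agent.Helper85K9.Cor.One u := by
  obtain ⟨f, ψ, h1, h2, h3, h4⟩ := h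
  exact ⟨f, ψ, ⟨h1.1, h1.2.2⟩, h1.2.1, h2, h3, h4⟩

/-- **Localisation to cells of one-dimensional functions, in all dimensions at once.** -/
theorem result (N L : ℕ) (ε Q : ℝ) (hε : 0 < ε) : ∃ C : ℝ, ∀ (n : ℕ) (u : Fin L → V n → ℂ)
    (F : Fin N → V n → ℂ), (∀ l, OneDimensional (u l)) →
    (∀ j, DifferentiableOn ℂ (F j) (ball 0 1)) → (∀ j, ∀ z ∈ ball (0 : V n) 1, ‖F j z‖ ≤ 1) →
    (∀ z₀ ∈ ball (0 : V n) 1, Solvable (Cell u ε z₀) F Q) → Solvable (ball 0 1) F C := by
  obtain ⟨C, hC⟩ := Pool.Agent.Helper85K9.Cor.cell_free L N (ε := ε) (Q := Q) hε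
  exact ⟨C, fun n u F hu hF hb h => hC n F u (fun j => ⟨hF j, hb j⟩) (fun l => (hu l).one) h⟩

/-- One arbitrary function in each cell. -/
theorem one_per_cell (N L : ℕ) (ε δ : ℝ) (hε : 0 < ε) (hδ : 0 < δ) : ∃ C : ℝ, ∀ (n : ℕ)
    (u : Fin L → V n → ℂ) (F : Fin N → V n → ℂ), (∀ l, OneDimensional (u l)) →
    (∀ j, DifferentiableOn ℂ (F j) (ball 0 1)) → (∀ j, ∀ z ∈ ball (0 : V n) 1, ‖F j z‖ ≤ 1) →
    (∀ z ∈ ball (0 : V n) 1, δ ≤ ∑ j, ‖F j z‖) →
    (∀ z₀ ∈ ball (0 : V n) 1, ∃ j₀, ∀ j, j ≠ j₀ → ∀ z ∈ Cell u ε z₀,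
      ‖F j z - F j z₀‖ ≤ δ / (4 * N)) → Solvable (ball 0 1) F C := by
  obtain ⟨C, hC⟩ := Pool.Agent.Helper85K9.Cor.osc_free L N hε hδ
  refine ⟨C, fun n u F hu hF hb hlow h => hC n F u (fun j => ⟨hF j, hb j⟩)
    (fun l => (hu l).one) hlow (fun z₀ hz₀ => ?_)⟩
  obtain ⟨j₀, hj₀⟩ := h z₀ hz₀
  exact ⟨j₀, fun j hj z hz hzc => hj₀ j hj z ⟨hz, hzc⟩⟩

end Pool.Agent.Helper85K9.Old.CellsAnyDimension
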